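import Mathlib

/-!
# Weighted sums over partitions with at most `n` parts, as coefficients of geometric-type series
-/

namespace Pool.Agent.Q36.WeightedSums

open Finset

/-- The entry `λ_{i+1}` of the tuple `l = (λ_1, …, λ_n)`, where `λ_j = 0` for `j > n`. -/
def entry {n : ℕ} (l : Fin n → ℕ) (i : ℕ) : ℕ := if h : i < n then l ⟨i, h⟩ else 0

/-- The set `Λ_n` of all `n`-tuples `λ_1 ≥ λ_2 ≥ … ≥ λ_n ≥ 0` of integers with sum `n`. -/
def Lam (n : ℕ) : Finset (Fin n → ℕ) :=
  (Fintype.piFinset fun _ => Finset.range (n + 1)).filter fun l => Antitone l ∧ ∑ i, l i = n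

theorem mem_Lam {n : ℕ} (l : Fin n → ℕ) : l ∈ Lam n ↔ Antitone l ∧ ∑ i, l i = n := by
  unfold Lam
  rw [Finset.mem_filter]
  constructor
  · exact fun h => h.2
  · intro h
    refine ⟨?_, h⟩
    rw [Fintype.mem_piFinset]
    intro i
    rw [Finset.mem_range]
    have : l i ≤ ∑ i, l i := Finset.single_le_sum (fun _ _ => Nat.zero_le _) (Finset.mem_univ i)
    omega

/-- `C(λ) = ∏_{i=1}^n binom(λ_i, λ_{i+1})`, where `λ_{n+1} = 0`. -/
def binomProd {n : ℕ} (l : Fin n → ℕ) : ℕ :=
  ∏ i ∈ Finset.range n, (entry l i).choose (entry l (i + 1))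

theorem entry_cons_zero {m : ℕ} (a : ℕ) (l : Fin m → ℕ) :
    entry (Fin.cons a l : Fin (m + 1) → ℕ) 0 = a := by
  simp [entry]

theorem entry_cons_succ {m : ℕ} (a : ℕ) (l : Fin m → ℕ) (i : ℕ) :
    entry (Fin.cons a l : Fin (m + 1) → ℕ) (i + 1) = entry l i := by
  unfold entry
  by_cases h : i < m
  · rw [dif_pos h, dif_pos (by omega)]
    have : (⟨i + 1, by omega⟩ : Fin (m + 1)) = Fin.succ ⟨i, h⟩ := rfl
    rw [this, Fin.cons_succ]
  · rw [dif_neg h, dif_neg (by omega)]

theorem sum_cons {M : Type*} [AddCommMonoid M] {m : ℕ} (s : Finset ℕ)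
    (f : (Fin (m + 1) → ℕ) → M) :
    ∑ l ∈ Fintype.piFinset (fun _ : Fin (m + 1) => s), f l =
      ∑ a ∈ s, ∑ l ∈ Fintype.piFinset (fun _ : Fin m => s), f (Fin.cons a l) := by
  rw [← Finset.sum_product']
  refine Finset.sum_nbij' (fun l => (l 0, Fin.tail l)) (fun p => Fin.cons p.1 p.2) ?_ ?_ ?_ ?_ ?_
  · intro l hl
    rw [Fintype.mem_piFinset] at hl
    rw [Finset.mem_product, Fintype.mem_piFinset]
    exact ⟨hl 0, fun i => hl i.succ⟩
  · intro p hp
    rw [Finset.mem_product, Fintype.mem_piFinset] at hp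
    rw [Fintype.mem_piFinset]
    intro i
    refine Fin.cases ?_ ?_ i
    · simpa using hp.1
    · intro j
      simpa using hp.2 j
  · intro l _
    exact Fin.cons_self_tail l
  · intro p _
    simp
  · intro l _
    show f l = f (Fin.cons (l 0) (Fin.tail l))
    rw [Fin.cons_self_tail]

/-- The nested product `1 + x_0 (1 + x_1 (… (1 + x_{m-1})))`. -/
def nest {R : Type*} [CommRing R] : ℕ → (ℕ → R) → R
  | 0, _ => 1
  | m + 1, x => 1 + x 0 * nest m (fun i => x (i + 1))

theorem sum_choose {R : Type*} [CommRing R] (N : ℕ) (m : ℕ) :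
    ∀ (x : ℕ → R) (j : ℕ), j ≤ N →
    ∑ l ∈ Fintype.piFinset (fun _ : Fin m => Finset.range (N + 1)),
      ((j.choose (entry l 0) : ℕ) : R) * ((binomProd l : ℕ) : R) *
        ∏ i ∈ Finset.range m, x i ^ entry l i = nest m x ^ j := by
  induction m with
  | zero =>
    intro x j _
    simp [nest, binomProd, entry]
  | succ m ih =>
    intro x j hj
    rw [sum_cons]
    have h1 : ∀ a ∈ Finset.range (N + 1),
        ∑ l ∈ Fintype.piFinset (fun _ : Fin m => Finset.range (N + 1)),
          ((j.choose (entry (Fin.cons a l : Fin (m + 1) → ℕ) 0) : ℕ) : R) *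
            ((binomProd (Fin.cons a l : Fin (m + 1) → ℕ) : ℕ) : R) *
            ∏ i ∈ Finset.range (m + 1), x i ^ entry (Fin.cons a l : Fin (m + 1) → ℕ) i =
          ((j.choose a : ℕ) : R) * (x 0 * nest m (fun i => x (i + 1))) ^ a := by
      intro a ha
      rw [mul_pow, ← ih (fun i => x (i + 1)) a (by simpa [Nat.lt_succ_iff] using ha),
        Finset.mul_sum, Finset.mul_sum]
      refine Finset.sum_congr rfl fun l _ => ?_
      rw [entry_cons_zero, Finset.prod_range_succ']
      simp only [entry_cons_succ, entry_cons_zero]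
      have h2 : binomProd (Fin.cons a l : Fin (m + 1) → ℕ) = a.choose (entry l 0) * binomProd l := by
        unfold binomProd
        rw [Finset.prod_range_succ']
        simp only [entry_cons_succ, entry_cons_zero]
        rw [mul_comm]
      rw [h2]
      push_cast
      ring
    rw [Finset.sum_congr rfl h1]
    show _ = (1 + x 0 * nest m (fun i => x (i + 1))) ^ j
    rw [add_comm 1, add_pow]
    have h3 : ∑ a ∈ Finset.range (N + 1), ((j.choose a : ℕ) : R) *
        (x 0 * nest m (fun i => x (i + 1))) ^ a =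
        ∑ a ∈ Finset.range (j + 1), ((j.choose a : ℕ) : R) *
        (x 0 * nest m (fun i => x (i + 1))) ^ a := by
      symm
      apply Finset.sum_subset
      · intro a ha
        rw [Finset.mem_range] at ha ⊢
        omega
      · intro a _ ha
        rw [Finset.mem_range, not_lt] at ha
        rw [Nat.choose_eq_zero_of_lt (by omega)]
        simp
    rw [h3]
    refine Finset.sum_congr rfl fun a _ => ?_
    rw [one_pow]
    ring

/-- The full sum over all tuples, with an additional weight of the first entry. -/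
theorem sum_full {R : Type*} [CommRing R] (N m : ℕ) (x : ℕ → R) (g : ℕ → R) :
    ∑ l ∈ Fintype.piFinset (fun _ : Fin (m + 1) => Finset.range (N + 1)),
      g (entry l 0) * ((binomProd l : ℕ) : R) *
        ∏ i ∈ Finset.range (m + 1), x i ^ entry l i =
      ∑ a ∈ Finset.range (N + 1), g a * (x 0 * nest m (fun i => x (i + 1))) ^ a := by
  rw [sum_cons]
  refine Finset.sum_congr rfl fun a ha => ?_
  rw [mul_pow, ← sum_choose N m (fun i => x (i + 1)) a (by simpa [Nat.lt_succ_iff] using ha),
    Finset.mul_sum, Finset.mul_sum]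
  refine Finset.sum_congr rfl fun l _ => ?_
  rw [entry_cons_zero, Finset.prod_range_succ']
  simp only [entry_cons_succ, entry_cons_zero]
  have h2 : binomProd (Fin.cons a l : Fin (m + 1) → ℕ) = a.choose (entry l 0) * binomProd l := by
    unfold binomProd
    rw [Finset.prod_range_succ']
    simp only [entry_cons_succ, entry_cons_zero]
    rw [mul_comm]
  rw [h2]
  push_cast
  ring

/-- If `C(λ) ≠ 0` then `λ` is weakly decreasing. -/
theorem antitone_of_binomProd {n : ℕ} (l : Fin n → ℕ) (h : binomProd l ≠ 0) : Antitone l := by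
  unfold binomProd at h
  rw [Finset.prod_ne_zero_iff] at h
  have hstep : ∀ i, i < n → entry l (i + 1) ≤ entry l i := by
    intro i hi
    by_contra hcon
    exact h i (Finset.mem_range.2 hi) (Nat.choose_eq_zero_of_lt (not_le.1 hcon))
  have hall : ∀ d i, i + d < n → entry l (i + d) ≤ entry l i := by
    intro d
    induction d with
    | zero => intro i _; exact le_rfl
    | succ d ih =>
      intro i hi
      exact (hstep (i + d) (by omega)).trans (ih i (by omega))
  intro i j hij
  have h1 := hall (j.val - i.val) i.val (by have := j.2; have : i.val ≤ j.val := hij; omega)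
  have h2 : i.val + (j.val - i.val) = j.val := by have : i.val ≤ j.val := hij; omega
  rw [h2] at h1
  unfold entry at h1
  rw [dif_pos j.2, dif_pos i.2] at h1
  exact h1

open PowerSeries in
/-- The weighted sum over `Λ_n` as a coefficient of a polynomial in a power series. -/
theorem sum_Lam_eq_coeff (n : ℕ) (hn : 0 < n) (w : ℕ → ℚ) (g : ℕ → ℚ) :
    ∑ l ∈ Lam n, g (entry l 0) * (binomProd l : ℚ) * ∏ i ∈ Finset.range n, w i ^ entry l i =
      PowerSeries.coeff n (∑ a ∈ Finset.range (n + 1), PowerSeries.C (g a) *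
        ((PowerSeries.C (w 0) * PowerSeries.X) *
          nest (n - 1) (fun i => PowerSeries.C (w (i + 1)) * PowerSeries.X)) ^ a) := by
  obtain ⟨m, rfl⟩ : ∃ m, n = m + 1 := ⟨n - 1, by omega⟩
  have hfull := sum_full (R := PowerSeries ℚ) (m + 1) m
    (fun i => PowerSeries.C (w i) * PowerSeries.X) (fun a => PowerSeries.C (g a))
  rw [Nat.add_sub_cancel]
  rw [← hfull, map_sum]
  unfold Lam
  rw [Finset.sum_filter]
  refine Finset.sum_congr rfl fun l _ => ?_
  have hX : ∏ i ∈ Finset.range (m + 1), (PowerSeries.C (w i) * PowerSeries.X : PowerSeries ℚ) ^ entry l i =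
      PowerSeries.C (∏ i ∈ Finset.range (m + 1), w i ^ entry l i) *
        PowerSeries.X ^ (∑ i ∈ Finset.range (m + 1), entry l i) := by
    simp only [mul_pow]
    rw [Finset.prod_mul_distrib, Finset.prod_pow_eq_pow_sum, map_prod]
    simp only [map_pow]
  have hsum : ∑ i ∈ Finset.range (m + 1), entry l i = ∑ i, l i := by
    rw [Finset.sum_range]
    refine Finset.sum_congr rfl fun i _ => ?_
    unfold entry
    rw [dif_pos i.2]
  rw [hX, hsum]
  have hcast : ((binomProd l : ℕ) : PowerSeries ℚ) = PowerSeries.C (binomProd l : ℚ) := by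
    simp
  rw [hcast]
  rw [show PowerSeries.C (g (entry l 0)) * PowerSeries.C (binomProd l : ℚ) *
      (PowerSeries.C (∏ i ∈ Finset.range (m + 1), w i ^ entry l i) *
        (PowerSeries.X : PowerSeries ℚ) ^ (∑ i, l i)) =
      PowerSeries.C (g (entry l 0) * (binomProd l : ℚ) *
        ∏ i ∈ Finset.range (m + 1), w i ^ entry l i) * PowerSeries.X ^ (∑ i, l i) by
    rw [map_mul, map_mul]; ring]
  rw [PowerSeries.coeff_C_mul, PowerSeries.coeff_X_pow]
  by_cases hs : ∑ i, l i = m + 1
  · rw [hs, if_pos rfl, mul_one]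
    by_cases ha : Antitone l
    · rw [if_pos ⟨ha, rfl⟩]
    · rw [if_neg (fun h => ha h.1)]
      have : binomProd l = 0 := by
        by_contra hcon
        exact ha (antitone_of_binomProd l hcon)
      rw [this]
      simp
  · rw [if_neg (fun h => hs h.2), if_neg (fun h => hs h.symm), mul_zero]

theorem nest_series (m : ℕ) :
    ∀ w : ℕ → ℚ, nest m (fun i => (PowerSeries.C (w i) * PowerSeries.X : PowerSeries ℚ)) =
      ∑ k ∈ Finset.range (m + 1), PowerSeries.C (∏ i ∈ Finset.range k, w i) * PowerSeries.X ^ k := by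
  induction m with
  | zero => intro w; simp [nest]
  | succ m ih =>
    intro w
    show 1 + (PowerSeries.C (w 0) * PowerSeries.X) *
      nest m (fun i => (PowerSeries.C (w (i + 1)) * PowerSeries.X : PowerSeries ℚ)) = _
    rw [ih (fun i => w (i + 1)), Finset.sum_range_succ' _ (m + 1), Finset.mul_sum]
    rw [add_comm]
    congr 1
    · refine Finset.sum_congr rfl fun k _ => ?_
      rw [Finset.prod_range_succ', map_mul, pow_succ]
      ring
    · simp

/-- The first-entry sum as a coefficient, in terms of the full series `∑_{k ≥ 1} (∏_{i<k} w_i) X^k`. -/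
theorem sum_Lam_eq (n : ℕ) (hn : 0 < n) (w : ℕ → ℚ) (g : ℕ → ℚ) (F : PowerSeries ℚ)
    (hF0 : PowerSeries.coeff 0 F = 0)
    (hF : ∀ k, 0 < k → PowerSeries.coeff k F = ∏ i ∈ Finset.range k, w i) :
    ∑ l ∈ Lam n, g (entry l 0) * (binomProd l : ℚ) * ∏ i ∈ Finset.range n, w i ^ entry l i =
      PowerSeries.coeff n (∑ a ∈ Finset.range (n + 1), PowerSeries.C (g a) * F ^ a) := by
  rw [sum_Lam_eq_coeff n hn w g]
  obtain ⟨m, rfl⟩ : ∃ m, n = m + 1 := ⟨n - 1, by omega⟩
  rw [Nat.add_sub_cancel, nest_series m (fun i => w (i + 1))]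
  set z : PowerSeries ℚ := (PowerSeries.C (w 0) * PowerSeries.X) *
    ∑ k ∈ Finset.range (m + 1), PowerSeries.C (∏ i ∈ Finset.range k, w (i + 1)) *
      PowerSeries.X ^ k with hz
  have hz' : z = ∑ k ∈ Finset.range (m + 1),
      PowerSeries.C (∏ i ∈ Finset.range (k + 1), w i) * PowerSeries.X ^ (k + 1) := by
    rw [hz, Finset.mul_sum]
    refine Finset.sum_congr rfl fun k _ => ?_
    rw [Finset.prod_range_succ', map_mul, pow_succ]
    ring
  have hdvd : (PowerSeries.X : PowerSeries ℚ) ^ (m + 2) ∣ F - z := by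
    rw [PowerSeries.X_pow_dvd_iff]
    intro k hk
    rw [map_sub, hz', map_sum]
    simp only [PowerSeries.coeff_C_mul, PowerSeries.coeff_X_pow]
    rcases Nat.eq_zero_or_pos k with hk0 | hk0
    · subst hk0
      rw [hF0]
      simp
    · rw [hF k hk0]
      obtain ⟨j, rfl⟩ : ∃ j, k = j + 1 := ⟨k - 1, by omega⟩
      rw [Finset.sum_eq_single j]
      · simp
      · intro b _ hb
        rw [if_neg (by omega), mul_zero]
      · intro hj
        exact absurd (Finset.mem_range.2 (by omega)) hj
  have hdvd2 : (PowerSeries.X : PowerSeries ℚ) ^ (m + 2) ∣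
      (∑ a ∈ Finset.range (m + 1 + 1), PowerSeries.C (g a) * F ^ a) -
      (∑ a ∈ Finset.range (m + 1 + 1), PowerSeries.C (g a) * z ^ a) := by
    rw [← Finset.sum_sub_distrib]
    refine Finset.dvd_sum fun a _ => ?_
    rw [← mul_sub]
    exact Dvd.dvd.mul_left (hdvd.trans (sub_dvd_pow_sub_pow F z a)) _
  rw [PowerSeries.X_pow_dvd_iff] at hdvd2
  have := hdvd2 (m + 1) (by omega)
  rw [map_sub, sub_eq_zero] at this
  exact this.symm

/-- Telescoping of the truncated series `∑ (1 + a) z ^ a`. -/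
theorem telescope {R : Type*} [CommRing R] (z : R) (n : ℕ) :
    (1 - z) ^ 2 * ∑ a ∈ Finset.range (n + 1), (1 + (a : R)) * z ^ a =
      1 - z ^ (n + 1) * ((n + 2 : R) - (n + 1 : R) * z) := by
  induction n with
  | zero => simp; ring
  | succ n ih =>
    rw [Finset.sum_range_succ, mul_add, ih]
    push_cast
    ring

/-- If `J * (1 - z) ^ 2 = 1` and `z` has zero constant term then the truncated series
`∑_{a ≤ n} (1 + a) z ^ a` has the same `n`-th coefficient as `J`. -/
theorem coeff_truncated (z J : PowerSeries ℚ) (hz : PowerSeries.coeff 0 z = 0)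
    (hJ : J * (1 - z) ^ 2 = 1) (n : ℕ) :
    PowerSeries.coeff n (∑ a ∈ Finset.range (n + 1), (1 + (a : PowerSeries ℚ)) * z ^ a) =
      PowerSeries.coeff n J := by
  have h1 : ∑ a ∈ Finset.range (n + 1), (1 + (a : PowerSeries ℚ)) * z ^ a =
      J - z ^ (n + 1) * (((n + 2 : PowerSeries ℚ) - (n + 1 : PowerSeries ℚ) * z) * J) := by
    calc ∑ a ∈ Finset.range (n + 1), (1 + (a : PowerSeries ℚ)) * z ^ a
        = J * (1 - z) ^ 2 * ∑ a ∈ Finset.range (n + 1), (1 + (a : PowerSeries ℚ)) * z ^ a := by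
          rw [hJ, one_mul]
      _ = J * (1 - z ^ (n + 1) * ((n + 2 : PowerSeries ℚ) - (n + 1 : PowerSeries ℚ) * z)) := by
          rw [mul_assoc, telescope]
      _ = _ := by ring
  rw [h1, map_sub, sub_eq_self]
  have hX : (PowerSeries.X : PowerSeries ℚ) ∣ z := by
    rw [PowerSeries.X_dvd_iff, ← PowerSeries.coeff_zero_eq_constantCoeff_apply, hz]
  have h2 : (PowerSeries.X : PowerSeries ℚ) ^ (n + 1) ∣
      z ^ (n + 1) * (((n + 2 : PowerSeries ℚ) - (n + 1 : PowerSeries ℚ) * z) * J) :=
    Dvd.dvd.mul_right (pow_dvd_pow_of_dvd hX _) _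
  rw [PowerSeries.X_pow_dvd_iff] at h2
  exact h2 n (by omega)

end Pool.Agent.Q36.WeightedSums
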