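import Mathlib
import Pool.Agent.Q36.WeightedSums

/-!
# The two power series `(1 - 2 X) ^ (1/2)` and `(1 - 2 X) ^ (-1/2)` through their coefficient products
-/

namespace Pool.Agent.Q36.WeightedSums

open Finset PowerSeries

/-- The weights `a_1 = 1`, `a_i = 2 i - 3` for `i ≥ 2`. -/
def aWeight (i : ℕ) : ℚ := if i = 1 then 1 else 2 * (i : ℚ) - 3

/-- coefficients `∏_{i ≤ k} a_i / i` -/
def fCoeff (k : ℕ) : ℚ := ∏ i ∈ Finset.range k, aWeight (i + 1) / ((i + 1 : ℕ) : ℚ)

/-- coefficients `∏_{i ≤ k} (2 i - 1) / i` -/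
def gCoeff (k : ℕ) : ℚ := ∏ i ∈ Finset.range k, (2 * ((i + 1 : ℕ) : ℚ) - 1) / ((i + 1 : ℕ) : ℚ)

theorem fCoeff_succ (k : ℕ) (hk : 0 < k) :
    ((k : ℚ) + 1) * fCoeff (k + 1) = (2 * (k : ℚ) - 1) * fCoeff k := by
  unfold fCoeff
  rw [Finset.prod_range_succ]
  have h : ((k : ℚ) + 1) ≠ 0 := by positivity
  unfold aWeight
  rw [if_neg (by omega : ¬ k + 1 = 1)]
  push_cast
  field_simp
  ring

theorem fCoeff_one : fCoeff 1 = 1 := by
  simp [fCoeff, aWeight]

theorem gCoeff_succ (k : ℕ) :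
    ((k : ℚ) + 1) * gCoeff (k + 1) = (2 * (k : ℚ) + 1) * gCoeff k := by
  unfold gCoeff
  rw [Finset.prod_range_succ]
  have h : ((k : ℚ) + 1) ≠ 0 := by positivity
  push_cast
  field_simp
  ring

/-- the series `1 - ∑_{k ≥ 1} f_k X^k` -/
noncomputable def yS : PowerSeries ℚ := PowerSeries.mk fun k => if k = 0 then 1 else -fCoeff k

/-- the series `∑_{k ≥ 0} g_k X^k` -/
noncomputable def gS : PowerSeries ℚ := PowerSeries.mk gCoeff

theorem coeff_one_sub_mul (f : PowerSeries ℚ) (n : ℕ) :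
    PowerSeries.coeff n ((1 - 2 * PowerSeries.X) * f) =
      PowerSeries.coeff n f - if n = 0 then 0 else 2 * PowerSeries.coeff (n - 1) f := by
  have h : (1 - 2 * PowerSeries.X) * f = f - PowerSeries.X * (PowerSeries.C (2 : ℚ) * f) := by
    rw [show (PowerSeries.C (2 : ℚ) : PowerSeries ℚ) = 2 from map_ofNat _ 2]
    ring
  rw [h, map_sub]
  rcases n with _ | n
  · simp
  · rw [PowerSeries.coeff_succ_X_mul, PowerSeries.coeff_C_mul, if_neg (by omega), Nat.add_sub_cancel]

theorem ode_g : (1 - 2 * PowerSeries.X) * d⁄dX ℚ gS = gS := by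
  ext n
  rw [coeff_one_sub_mul, PowerSeries.coeff_derivative]
  rcases n with _ | n
  · have := gCoeff_succ 0
    simp [gS, gCoeff] at this ⊢
    norm_num
  · rw [if_neg (by omega), Nat.add_sub_cancel, PowerSeries.coeff_derivative]
    unfold gS
    rw [PowerSeries.coeff_mk, PowerSeries.coeff_mk]
    have := gCoeff_succ (n + 1)
    push_cast at this ⊢
    linarith

theorem ode_y : (1 - 2 * PowerSeries.X) * d⁄dX ℚ yS = -yS := by
  ext n
  rw [coeff_one_sub_mul, PowerSeries.coeff_derivative, map_neg]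
  rcases n with _ | n
  · unfold yS
    rw [PowerSeries.coeff_mk, PowerSeries.coeff_mk]
    simp [fCoeff_one]
  · rw [if_neg (by omega), Nat.add_sub_cancel, PowerSeries.coeff_derivative]
    unfold yS
    rw [PowerSeries.coeff_mk, PowerSeries.coeff_mk, if_neg (by omega), if_neg (by omega)]
    have := fCoeff_succ (n + 1) (by omega)
    push_cast at this ⊢
    linarith

theorem one_sub_ne : (1 - 2 * PowerSeries.X : PowerSeries ℚ) ≠ 0 := by
  intro h
  have := congrArg (PowerSeries.coeff 0) h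
  simp at this

theorem y_mul_g : yS * gS = 1 := by
  apply PowerSeries.derivative.ext
  · have h : (1 - 2 * PowerSeries.X) * d⁄dX ℚ (yS * gS) = 0 := by
      rw [Derivation.leibniz]
      simp only [smul_eq_mul]
      calc (1 - 2 * PowerSeries.X) * (yS * d⁄dX ℚ gS + gS * d⁄dX ℚ yS)
          = yS * ((1 - 2 * PowerSeries.X) * d⁄dX ℚ gS) +
              gS * ((1 - 2 * PowerSeries.X) * d⁄dX ℚ yS) := by ring
        _ = 0 := by rw [ode_g, ode_y]; ring
    rcases mul_eq_zero.1 h with h1 | h1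
    · exact absurd h1 one_sub_ne
    · rw [h1]
      simp
  · rw [map_mul]
    unfold yS gS
    rw [← PowerSeries.coeff_zero_eq_constantCoeff_apply, ← PowerSeries.coeff_zero_eq_constantCoeff_apply,
      PowerSeries.coeff_mk, PowerSeries.coeff_mk]
    simp [gCoeff]

theorem one_sub_mul_g_sq : (1 - 2 * PowerSeries.X) * gS ^ 2 = 1 := by
  apply PowerSeries.derivative.ext
  · rw [Derivation.leibniz, Derivation.leibniz_pow]
    simp only [smul_eq_mul]
    have h1 : d⁄dX ℚ (1 - 2 * PowerSeries.X : PowerSeries ℚ) = -2 := by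
      ext n
      rw [PowerSeries.coeff_derivative]
      have h2 : (1 - 2 * PowerSeries.X : PowerSeries ℚ) =
          1 - PowerSeries.C (2 : ℚ) * PowerSeries.X := by
        rw [show (PowerSeries.C (2 : ℚ) : PowerSeries ℚ) = 2 from map_ofNat _ 2]
      rw [h2, map_sub, PowerSeries.coeff_C_mul, PowerSeries.coeff_X, PowerSeries.coeff_one]
      have h3 : (-2 : PowerSeries ℚ) = PowerSeries.C (-2 : ℚ) := by
        rw [map_neg, show (PowerSeries.C (2 : ℚ) : PowerSeries ℚ) = 2 from map_ofNat _ 2]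
      rw [h3, PowerSeries.coeff_C]
      rcases n with _ | n
      · simp
      · simp
    rw [h1]
    simp only [Nat.add_one_sub_one, pow_one, nsmul_eq_mul, Nat.cast_ofNat]
    calc (1 - 2 * PowerSeries.X) * (2 * (gS * d⁄dX ℚ gS)) + gS ^ 2 * -2
        = 2 * gS * ((1 - 2 * PowerSeries.X) * d⁄dX ℚ gS) - 2 * gS ^ 2 := by ring
      _ = 0 := by rw [ode_g]; ring
      _ = d⁄dX ℚ (1 : PowerSeries ℚ) := by simp
  · rw [map_mul, map_pow]
    unfold gS
    rw [← PowerSeries.coeff_zero_eq_constantCoeff_apply, ← PowerSeries.coeff_zero_eq_constantCoeff_apply,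
      PowerSeries.coeff_mk]
    simp [gCoeff]

theorem coeff_g_sq (n : ℕ) : PowerSeries.coeff n (gS ^ 2) = 2 ^ n := by
  induction n with
  | zero =>
    have h := congrArg (PowerSeries.coeff 0) one_sub_mul_g_sq
    rw [coeff_one_sub_mul] at h
    simpa using h
  | succ n ih =>
    have h := congrArg (PowerSeries.coeff (n + 1)) one_sub_mul_g_sq
    rw [coeff_one_sub_mul, if_neg (by omega), Nat.add_sub_cancel, ih, PowerSeries.coeff_one,
      if_neg (by omega)] at h
    rw [pow_succ (2 : ℚ)]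
    linarith

end Pool.Agent.Q36.WeightedSums
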